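import Pool.Agent.Run7.h423.CE.Base

/-!
Piece PSI of project CE (helper450, MP_e09b77_an), by helper423.
-/

set_option autoImplicit false
open Filter Topology Matrix
open scoped ComplexOrder

namespace Run7.h423.CE
open Run7.h450.CE

theorem pos_nonneg {B : Type} [CStarAlgebra B] [PartialOrder B] [StarOrderedRing B] (x : B) :
    Pos x ↔ 0 ≤ x := by
  rw [CStarAlgebra.nonneg_iff_eq_star_mul_self]
  rfl

/-- a positive matrix gives a positive element -/
theorem row_pos {B : Type} [CStarAlgebra B] [PartialOrder B] [StarOrderedRing B]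
    {K : Type} [Fintype K] (m : Matrix K K ℂ) (hm : m.PosSemidef) (x : K → B) :
    0 ≤ ∑ k, ∑ l, m k l • (x k * star (x l)) := by
  classical
  obtain ⟨c, rfl⟩ := (pos_iff m).mpr hm
  have h : ∑ k, ∑ l, (star c * c) k l • (x k * star (x l)) =
      ∑ j, (∑ k, star (c j k) • x k) * star (∑ k, star (c j k) • x k) := by
    simp only [Matrix.mul_apply, Finset.sum_smul, star_sum, Finset.mul_sum, Finset.sum_mul,
      star_smul, star_star, smul_mul_assoc, mul_smul_comm, smul_smul, Matrix.star_apply,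
      Finset.smul_sum]
    rw [Finset.sum_comm_cycle]
    refine Finset.sum_congr rfl fun j _ => ?_
    rw [Finset.sum_comm]
    refine Finset.sum_congr rfl fun k _ => Finset.sum_congr rfl fun l _ => ?_
    rw [mul_comm]
  rw [h]
  exact Finset.sum_nonneg fun j _ => mul_star_self_nonneg _

theorem t_PSI (hCS : S_CS) : S_PSI := by
  intro B _ ι _ K _ _ ψ g P z δ x y hcp hone hPs hPP hPz hδ hg
  let _ : PartialOrder B := CStarAlgebra.spectralOrder B
  have : StarOrderedRing B := CStarAlgebra.spectralOrderedRing B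
  classical
  -- the matrices
  set m : ∀ i, Matrix (K i) (K i) ℂ := fun i => g i * ψ i z with hm
  set r : (Σ i, K i) → B := fun κ => ∑ k, m κ.1 k κ.2 • x κ.1 k with hr
  set Y : (Σ i, K i) → B := fun κ => star (y κ.1 κ.2) with hY
  have hS : ∑ i, ∑ k, ∑ l, (m i k l) • (x i k * star (y i l)) = ∑ κ, r κ * Y κ := by
    rw [Fintype.sum_sigma]
    refine Finset.sum_congr rfl fun i _ => ?_
    rw [Finset.sum_comm]
    refine Finset.sum_congr rfl fun l _ => ?_
    simp only [hr, hY, Finset.sum_mul, smul_mul_assoc]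
  have hYY : ∑ κ, star (Y κ) * Y κ = ∑ i, ∑ k, y i k * star (y i k) := by
    rw [Fintype.sum_sigma]
    simp only [hY, star_star]
  have hrr : ∑ κ, r κ * star (r κ) =
      ∑ i, ∑ k, ∑ l, (m i * (m i)ᴴ) k l • (x i k * star (x i l)) := by
    rw [Fintype.sum_sigma]
    refine Finset.sum_congr rfl fun i _ => ?_
    simp only [hr, star_sum, Finset.sum_mul, Finset.mul_sum, Matrix.mul_apply, star_smul,
      smul_mul_assoc, mul_smul_comm, smul_smul, Matrix.conjTranspose_apply, Finset.sum_smul,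
      Finset.smul_sum]
    symm
    rw [Finset.sum_comm_cycle]
    refine Finset.sum_congr rfl fun j _ => ?_
    rw [Finset.sum_comm]
    refine Finset.sum_congr rfl fun k _ => Finset.sum_congr rfl fun l _ => ?_
    rw [mul_comm]
  -- the matrix inequality
  have hmat : ∀ i, (((δ * ‖z‖ ^ 2 : ℝ) : ℂ) • (1 : Matrix (K i) (K i) ℂ) -
      m i * (m i)ᴴ).PosSemidef := by
    intro i
    have e1 := (schwarz (hcp i) (hone i) z).mul_mul_conjTranspose_same (g i)
    have e2 : (ψ i (((‖z‖ ^ 2 : ℝ) : ℂ) • P - z * star z)).PosSemidef := by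
      have h3 : 0 ≤ ((‖z‖ ^ 2 : ℝ) : ℂ) • P - z * star z := by
        have h4 : z * star z ≤ algebraMap ℝ B (‖z‖ ^ 2) :=
          CStarAlgebra.mul_star_le_algebraMap_norm_sq
        have h5 := star_left_conjugate_le_conjugate h4 P
        rw [sub_nonneg]
        have h6 : star P * (z * star z) * P = z * star z := by
          rw [hPs]
          have : star z * P = star z := by
            have := congrArg star hPz
            rwa [star_mul, hPs] at this
          calc P * (z * star z) * P = (P * z) * (star z * P) := by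
                simp only [mul_assoc]
            _ = _ := by rw [hPz, this]
        have h7 : star P * algebraMap ℝ B (‖z‖ ^ 2) * P = ((‖z‖ ^ 2 : ℝ) : ℂ) • P := by
          rw [hPs, ← Algebra.commutes, mul_assoc, hPP, Algebra.algebraMap_eq_smul_one,
            smul_mul_assoc, one_mul]
          exact (Complex.coe_smul _ _).symm
        rwa [h6, h7] at h5
      obtain ⟨c, hc⟩ := (pos_nonneg _).mpr h3
      rw [hc]
      exact cp_one (hcp i) c
    have e3 := e2.mul_mul_conjTranspose_same (g i)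
    have e4 := ((pos_iff _).mp (hg i)).smul (α := ℝ) (a := ‖z‖ ^ 2) (sq_nonneg ‖z‖)
    have e5 := (e1.add e3).add e4
    convert e5 using 1
    have e6 : ∀ M : Matrix (K i) (K i) ℂ, (‖z‖ ^ 2 : ℝ) • M = ((‖z‖ ^ 2 : ℝ) : ℂ) • M :=
      fun M => (Complex.coe_smul _ _).symm
    have e7 : ((δ * ‖z‖ ^ 2 : ℝ) : ℂ) = ((‖z‖ ^ 2 : ℝ) : ℂ) * (δ : ℂ) := by
      rw [mul_comm δ, Complex.ofReal_mul]
    rw [e6, e7]
    simp only [map_sub, map_smul, hm, Matrix.conjTranspose_mul, smul_sub, Matrix.mul_sub,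
      Matrix.sub_mul, Matrix.mul_smul, Matrix.smul_mul, smul_smul, Matrix.mul_assoc]
    abel
  -- the inequality for rows
  have hle : ∑ κ, r κ * star (r κ) ≤
      (δ * ‖z‖ ^ 2 : ℝ) • ∑ i, ∑ k, x i k * star (x i k) := by
    rw [hrr, ← sub_nonneg, Finset.smul_sum, ← Finset.sum_sub_distrib]
    refine Finset.sum_nonneg fun i _ => ?_
    have h := row_pos _ (hmat i) (x i)
    convert h using 1
    rw [Finset.smul_sum, ← Finset.sum_sub_distrib]
    refine Finset.sum_congr rfl fun k _ => ?_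
    simp only [Matrix.sub_apply, Matrix.smul_apply, Matrix.one_apply, sub_smul,
      Finset.sum_sub_distrib, smul_eq_mul, mul_ite, mul_one, mul_zero, ite_smul, zero_smul,
      Finset.sum_ite_eq, Finset.mem_univ, if_true]
    rw [Complex.coe_smul]
  have hn : ‖∑ κ, r κ * star (r κ)‖ ≤ δ * ‖z‖ ^ 2 * ‖∑ i, ∑ k, x i k * star (x i k)‖ := by
    refine (CStarAlgebra.norm_le_norm_of_nonneg_of_le
      (Finset.sum_nonneg fun j _ => mul_star_self_nonneg _) hle).trans ?_
    rw [norm_smul, Real.norm_of_nonneg (by positivity)]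
  -- Cauchy-Schwarz
  have hcs : ‖∑ κ, r κ * Y κ‖ ^ 2 ≤ ‖∑ κ, r κ * star (r κ)‖ *
      ‖∑ i, ∑ k, y i k * star (y i k)‖ := by
    have h := (pos_nonneg _).mp (hCS B (Σ i, K i) r Y)
    rw [sub_nonneg, hYY] at h
    have h2 := CStarAlgebra.norm_le_norm_of_nonneg_of_le (star_mul_self_nonneg _) h
    rw [CStarRing.norm_star_mul_self, norm_smul, ← pow_two] at h2
    simpa using h2
  rw [hS]
  have hfin : ‖∑ κ, r κ * Y κ‖ ^ 2 ≤ (√δ * ‖z‖ * √‖∑ i, ∑ k, x i k * star (x i k)‖ *
      √‖∑ i, ∑ k, y i k * star (y i k)‖) ^ 2 := by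
    rw [mul_pow, mul_pow, mul_pow, Real.sq_sqrt hδ, Real.sq_sqrt (norm_nonneg _),
      Real.sq_sqrt (norm_nonneg _)]
    exact hcs.trans (mul_le_mul_of_nonneg_right hn (norm_nonneg _))
  exact (abs_le_of_sq_le_sq' hfin (by positivity)).2

end Run7.h423.CE
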