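import Pool.Agent.Run7.h423.CE.Base

/-!
Piece STEP of project CE (helper450, MP_e09b77_an), by helper423.
-/

set_option autoImplicit false
open Filter Topology Matrix
open scoped ComplexOrder

namespace Run7.h423.CE
open Run7.h450.CE

section ck
variable {N : ℕ} {A : Matrix (Fin N) (Fin N) ℕ} {B : Type} [CStarAlgebra B] {S : Fin N → B}

theorem pp_star (i : Fin N) : star (PP S i) = PP S i := by
  simp [PP]

theorem pp_idem (h : CK A S) (i : Fin N) : PP S i * PP S i = PP S i := by
  have := h.isom i
  calc S i * star (S i) * (S i * star (S i)) = (S i * star (S i) * S i) * star (S i) := by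
        simp only [mul_assoc]
    _ = _ := by rw [this, PP]

theorem pp_orth (h : CK A S) {i j : Fin N} (hij : i ≠ j) : PP S i * PP S j = 0 := by
  let _ : PartialOrder B := CStarAlgebra.spectralOrder B
  have : StarOrderedRing B := CStarAlgebra.spectralOrderedRing B
  -- ∑_{k ≠ j} P_j P_k P_j = 0
  have h1 : ∑ k, PP S j * PP S k * PP S j = PP S j := by
    rw [← Finset.sum_mul, ← Finset.mul_sum]
    have : ∑ k, PP S k = 1 := h.sum_one
    rw [this, mul_one, pp_idem h]
  have h2 : ∑ k ∈ Finset.univ.erase j, PP S j * PP S k * PP S j = 0 := by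
    have h3 := Finset.add_sum_erase Finset.univ (fun k => PP S j * PP S k * PP S j)
      (Finset.mem_univ j)
    rw [h1] at h3
    simp only [pp_idem h] at h3
    simpa using h3
  have h4 : ∀ k ∈ Finset.univ.erase j, 0 ≤ PP S j * PP S k * PP S j := by
    intro k _
    have : PP S j * PP S k * PP S j = star (PP S k * PP S j) * (PP S k * PP S j) := by
      rw [star_mul, pp_star, pp_star]
      calc PP S j * PP S k * PP S j = PP S j * (PP S k * PP S k) * PP S j := by rw [pp_idem h]
        _ = _ := by simp only [mul_assoc]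
    rw [this]
    exact star_mul_self_nonneg _
  have h5 := (Finset.sum_eq_zero_iff_of_nonneg h4).mp h2 i
    (Finset.mem_erase.mpr ⟨hij, Finset.mem_univ i⟩)
  have h6 : star (PP S i * PP S j) * (PP S i * PP S j) = 0 := by
    rw [star_mul, pp_star, pp_star]
    calc PP S j * PP S i * (PP S i * PP S j) = PP S j * (PP S i * PP S i) * PP S j := by
          simp only [mul_assoc]
      _ = 0 := by rw [pp_idem h, h5]
  exact CStarRing.star_mul_self_eq_zero_iff _ |>.mp h6

theorem pp_S (h : CK A S) (i : Fin N) : PP S i * S i = S i := h.isom i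

theorem star_S_pp (h : CK A S) (i : Fin N) : star (S i) * PP S i = star (S i) := by
  have := congrArg star (pp_S h i)
  rwa [star_mul, pp_star] at this

theorem S_orth (h : CK A S) {i j : Fin N} (hij : i ≠ j) : star (S i) * S j = 0 := by
  calc star (S i) * S j = (star (S i) * PP S i) * (PP S j * S j) := by
        rw [star_S_pp h, pp_S h]
    _ = star (S i) * (PP S i * PP S j) * S j := by simp only [mul_assoc]
    _ = 0 := by rw [pp_orth h hij]; simp

theorem q_mul (h : CK A S) (i j : Fin N) : star (S i) * S i * PP S j = (A i j : ℂ) • PP S j := by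
  rw [h.rel i, Finset.sum_mul]
  rw [Finset.sum_eq_single j]
  · rw [smul_mul_assoc]
    exact congrArg _ (pp_idem h j)
  · intro k _ hk
    rw [smul_mul_assoc]
    have := pp_orth h hk
    unfold PP at this ⊢
    rw [this, smul_zero]
  · simp

theorem q_x (h : CK A S) (i j : Fin N) (x : B) (hx : PP S j * x = x) :
    star (S i) * (S i * x) = (A i j : ℂ) • x := by
  calc star (S i) * (S i * x) = star (S i) * S i * PP S j * x := by
        conv_lhs => rw [← hx]
        simp only [mul_assoc]
    _ = _ := by rw [q_mul h, smul_mul_assoc, hx]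

theorem S_x_zero (h : CK A S) {i j : Fin N} (x : B) (hx : PP S j * x = x) (ha : A i j = 0) :
    S i * x = 0 := by
  calc S i * x = S i * (star (S i) * (S i * x)) := by
        rw [← mul_assoc, ← mul_assoc]
        rw [h.isom i]
    _ = 0 := by rw [q_x h i j x hx, ha]; simp

/-- the projection `S_i* S_i` is at most one -/
theorem q_le (h : CK A S) (i : Fin N) : ∃ e : B, 1 - star (S i) * S i = star e * e := by
  refine ⟨1 - star (S i) * S i, ?_⟩
  have h1 : star (S i) * S i * (star (S i) * S i) = star (S i) * S i := by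
    calc star (S i) * S i * (star (S i) * S i) = star (S i) * (S i * star (S i) * S i) := by
          simp only [mul_assoc]
      _ = _ := by rw [h.isom i]
  simp only [star_sub, star_one, star_mul, star_star, mul_sub, sub_mul, one_mul, mul_one, h1]
  abel

end ck

section psi
variable {N : ℕ} {A : Matrix (Fin N) (Fin N) ℕ} {B : Type} [CStarAlgebra B] {S : Fin N → B}
variable {K K' : Type}

/-- the new map -/
noncomputable def spsi (S : Fin N → B) (ψ : B →ₗ[ℂ] Matrix K K ℂ) (f : K' → Fin N × K) :
    B →ₗ[ℂ] Matrix K' K' ℂ where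
  toFun z := Matrix.of fun p q => ψ (star (S (f p).1) * z * S (f q).1) (f p).2 (f q).2
  map_add' x y := by
    ext p q
    simp [mul_add, add_mul]
  map_smul' c x := by
    ext p q
    simp

variable [Fintype K] [Fintype K']

theorem spsi_cp {ψ : B →ₗ[ℂ] Matrix K K ℂ} (hψ : CP ψ) (f : K' → Fin N × K) :
    CP (spsi S ψ f) := by
  refine cp_of_big fun n a => ?_
  have h := (big_psd hψ (fun s : Fin n × Fin N => a s.1 * S s.2)).submatrix
    (fun p : Fin n × K' => ((p.1, (f p.2).1), (f p.2).2))
  convert h using 1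
  ext p q
  simp only [big, spsi, Matrix.of_apply, Matrix.submatrix_apply, LinearMap.coe_mk, AddHom.coe_mk,
    star_mul]
  simp only [mul_assoc]

theorem spsi_one [DecidableEq K] [DecidableEq K'] (h : CK A S) {ψ : B →ₗ[ℂ] Matrix K K ℂ}
    (hψ : CP ψ) (h1 : Pos (1 - ψ 1)) (f : K' → Fin N × K) (hf : Function.Injective f) :
    Pos (1 - spsi S ψ f 1) := by
  rw [pos_iff]
  have e1 : ∀ i, (1 - ψ (star (S i) * S i)).PosSemidef := by
    intro i
    obtain ⟨e, he⟩ := q_le h i
    have h2 := ((pos_iff _).mp h1).add (cp_one hψ e)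
    rw [← he, map_sub] at h2
    convert h2 using 1
    abel
  have e2 : (∑ i : Fin N, (Matrix.diagonal fun p : K' => if (f p).1 = i then (1 : ℂ) else 0)ᴴ *
      ((1 - ψ (star (S i) * S i)).submatrix (fun p : K' => (f p).2) (fun p : K' => (f p).2)) *
      (Matrix.diagonal fun p : K' => if (f p).1 = i then (1 : ℂ) else 0)).PosSemidef :=
    Matrix.posSemidef_sum _ fun i _ => ((e1 i).submatrix _).conjTranspose_mul_mul_same _
  convert e2 using 1
  ext p q
  have e3 : ∀ i : Fin N, (((Matrix.diagonal fun p : K' => if (f p).1 = i then (1 : ℂ) else 0)ᴴ *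
      ((1 - ψ (star (S i) * S i)).submatrix (fun p : K' => (f p).2) (fun p : K' => (f p).2)) *
      (Matrix.diagonal fun p : K' => if (f p).1 = i then (1 : ℂ) else 0)) p q) =
      if (f p).1 = i then (if (f q).1 = i then (1 - ψ (star (S i) * S i)) (f p).2 (f q).2 else 0)
        else 0 := by
    intro i
    rw [Matrix.diagonal_conjTranspose, Matrix.mul_diagonal, Matrix.diagonal_mul]
    simp only [Pi.star_apply, Matrix.submatrix_apply]
    split_ifs <;> simp
  rw [Matrix.sum_apply]
  simp only [e3]
  rw [Finset.sum_ite_eq Finset.univ (f p).1]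
  simp only [Finset.mem_univ, if_true, Matrix.sub_apply, spsi, LinearMap.coe_mk, AddHom.coe_mk,
    Matrix.of_apply, mul_one, Matrix.one_apply]
  by_cases hpq : (f q).1 = (f p).1
  · rw [if_pos hpq, hpq]
    congr 1
    by_cases h2 : (f p).2 = (f q).2
    · rw [if_pos h2, if_pos (hf (Prod.ext hpq.symm h2))]
    · rw [if_neg h2, if_neg (fun h3 => h2 (by rw [h3]))]
  · rw [if_neg hpq, if_neg (fun h3 => hpq (by rw [h3])), S_orth h (fun h3 => hpq h3.symm)]
    simp

end psi

theorem sum_sub {X M : Type} [Fintype X] [AddCommMonoid M] (P : X → Prop) [DecidablePred P]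
    (G : X → M) (hG : ∀ x, ¬ P x → G x = 0) : ∑ x : {x // P x}, G x.1 = ∑ x, G x := by
  rw [← Finset.sum_subtype (F := inferInstance) (Finset.univ.filter P) (p := P) (by simp) G]
  refine Finset.sum_filter_of_ne fun x _ hx => ?_
  by_contra h2
  exact hx (hG x h2)

section step
variable {d N : ℕ} {A : Matrix (Fin N) (Fin N) ℕ} {B : Type} [CStarAlgebra B] {S : Fin N → B}

/-- the new system -/
noncomputable def nsys (h : CK A S) (c : CSys d B (PP S)) : CSys d B (PP S) where
  ι := c.ι
  fι := c.fι
  K b := {p : Fin N × c.K b // A p.1 (c.j b p.2) = 1}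
  fK b := inferInstance
  dK b := inferInstance
  col := c.col
  j b p := p.1.1
  x b p := S p.1.1 * c.x b p.1.2
  h := c.h
  ψ b := spsi S (c.ψ b) Subtype.val
  ψ_cp b := spsi_cp (c.ψ_cp b) _
  ψ_one b := spsi_one h (c.ψ_cp b) (c.ψ_one b) _ Subtype.val_injective
  Px b p := by rw [← mul_assoc, pp_S h]
  orth b p b' p' hc hne := by
    by_cases hp : p.1.1 = p'.1.1
    · have h1 := q_x h p.1.1 (c.j b' p'.1.2) (c.x b' p'.1.2) (c.Px b' p'.1.2)
      have h2 : A p.1.1 (c.j b' p'.1.2) = 1 := by rw [hp]; exact p'.2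
      rw [h2, Nat.cast_one, one_smul] at h1
      have h3 : star (c.x b p.1.2) * c.x b' p'.1.2 = 0 := by
        refine c.orth b p.1.2 b' p'.1.2 hc fun h4 => hne ?_
        obtain ⟨⟨i, k⟩, hk⟩ := p
        obtain ⟨⟨i', k'⟩, hk'⟩ := p'
        simp only at hp h4
        subst hp
        cases h4
        rfl
      rw [star_mul, ← hp, mul_assoc, h1, h3]
    · rw [star_mul]
      calc star (c.x b p.1.2) * star (S p.1.1) * (S p'.1.1 * c.x b' p'.1.2) =
          star (c.x b p.1.2) * (star (S p.1.1) * S p'.1.1) * c.x b' p'.1.2 := by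
            simp only [mul_assoc]
        _ = 0 := by rw [S_orth h hp]; simp
  mod b p := by
    have h1 := q_x h p.1.1 (c.j b p.1.2) (c.x b p.1.2) (c.Px b p.1.2)
    rw [p.2, Nat.cast_one, one_smul] at h1
    rw [star_mul, mul_assoc, h1, c.mod]
  h_le := c.h_le

theorem nsys_T (h01 : ZeroOne A) (h : CK A S) (c : CSys d B (PP S)) (z : B) :
    (nsys h c).T z = Tst S c.T z := by
  have hz : ∀ (b : c.ι) (p : Fin N × c.K b), ¬ A p.1 (c.j b p.2) = 1 →
      S p.1 * c.x b p.2 = 0 := fun b p hp =>
    S_x_zero h _ (c.Px b p.2) ((h01 _ _).resolve_right hp)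
  have e1 : (nsys h c).T z = ∑ b : c.ι, ∑ p : Fin N × c.K b, ∑ q : Fin N × c.K b,
      (c.ψ b (star (S p.1) * z * S q.1) p.2 q.2) •
        ((S p.1 * c.x b p.2) * star (S q.1 * c.x b q.2)) := by
    unfold CSys.T
    refine Finset.sum_congr rfl fun (b : c.ι) _ => ?_
    refine Eq.trans ?_ (sum_sub (fun p : Fin N × c.K b => A p.1 (c.j b p.2) = 1)
      (fun p : Fin N × c.K b => ∑ q : Fin N × c.K b,
      (c.ψ b (star (S p.1) * z * S q.1) p.2 q.2) •
        ((S p.1 * c.x b p.2) * star (S q.1 * c.x b q.2))) ?_)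
    · refine Finset.sum_congr rfl fun p _ => ?_
      refine Eq.trans ?_ (sum_sub (fun p : Fin N × c.K b => A p.1 (c.j b p.2) = 1)
        (fun q : Fin N × c.K b =>
        (c.ψ b (star (S p.1.1) * z * S q.1) p.1.2 q.2) •
          ((S p.1.1 * c.x b p.1.2) * star (S q.1 * c.x b q.2))) ?_)
      · rfl
      · intro q hq
        change _ • ((S p.1.1 * c.x b p.1.2) * star (S q.1 * c.x b q.2)) = 0
        rw [hz b q hq]
        simp
    · intro p hp
      refine Finset.sum_eq_zero fun q _ => ?_
      rw [hz b p hp]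
      simp
  rw [e1]
  unfold Tst CSys.T
  simp only [Fintype.sum_prod_type, Finset.mul_sum, Finset.sum_mul]
  rw [Finset.sum_comm]
  refine Finset.sum_congr rfl fun i _ => ?_
  symm
  rw [Finset.sum_comm]
  refine Finset.sum_congr rfl fun b _ => ?_
  rw [Finset.sum_comm]
  refine Finset.sum_congr rfl fun k _ => Finset.sum_congr rfl fun j _ =>
    Finset.sum_congr rfl fun l _ => ?_
  rw [mul_smul_comm, smul_mul_assoc, star_mul]
  simp only [mul_assoc]

theorem nsys_cnt (h01 : ZeroOne A) (h : CK A S) (c : CSys d B (PP S)) (i : Fin N) :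
    (nsys h c).cnt i = ∑ j, A i j * c.cnt j := by
  unfold CSys.cnt
  simp only [Finset.card_filter, Finset.mul_sum]
  rw [Finset.sum_comm]
  refine Finset.sum_congr rfl fun (b : c.ι) _ => ?_
  have e1 := sum_sub (fun p : Fin N × c.K b => A p.1 (c.j b p.2) = 1)
    (fun p : Fin N × c.K b => if A p.1 (c.j b p.2) = 1 then (if p.1 = i then 1 else 0) else 0)
    (fun p hp => if_neg hp)
  have e2 : (∑ p : {p : Fin N × c.K b // A p.1 (c.j b p.2) = 1}, if p.1.1 = i then 1 else 0) =
      ∑ p : {p : Fin N × c.K b // A p.1 (c.j b p.2) = 1},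
        (if A p.1.1 (c.j b p.1.2) = 1 then (if p.1.1 = i then 1 else 0) else 0) :=
    Finset.sum_congr rfl fun p _ => by rw [if_pos p.2]
  refine (e2.trans e1).trans ?_
  rw [Fintype.sum_prod_type, Finset.sum_comm]
  symm
  rw [Finset.sum_comm]
  refine Finset.sum_congr rfl fun k _ => ?_
  have e3 : ∀ x : Fin N, (if A x (c.j b k) = 1 then (if x = i then 1 else 0) else 0) =
      if x = i then A i (c.j b k) else 0 := by
    intro x
    by_cases hx : x = i
    · subst hx
      rcases h01 x (c.j b k) with h0 | h0 <;> simp [h0]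
    · simp [hx]
  simp only [e3]
  simp

end step

theorem t_STEP : S_STEP := by
  intro d N A B _ S h01 h c
  exact ⟨nsys h c, nsys_T h01 h c, nsys_cnt h01 h c⟩

end Run7.h423.CE
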