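import Pool.Agent.Run7.h450.CE.Iface

/-!
Completely positive maps into matrices: basic facts (helper423, for project CE of helper450).
-/

set_option autoImplicit false
open Filter Topology Matrix
open scoped ComplexOrder

namespace Run7.h423.CE
open Run7.h450.CE

section mat
variable {B : Type} [CStarAlgebra B]
variable {K : Type} [Fintype K]

open scoped MatrixOrder in
theorem pos_iff (m : Matrix K K ℂ) : Pos m ↔ m.PosSemidef := by
  classical
  constructor
  · rintro ⟨c, rfl⟩
    exact Matrix.posSemidef_conjTranspose_mul_self c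
  · intro h
    refine ⟨CFC.sqrt m, ?_⟩
    have h1 : (CFC.sqrt m)ᴴ = CFC.sqrt m := (CFC.sqrt_nonneg m).posSemidef.isHermitian.eq
    rw [Matrix.star_eq_conjTranspose, h1]
    exact (CFC.sqrt_mul_sqrt_self m h.nonneg).symm

theorem cp_one {T : B →ₗ[ℂ] Matrix K K ℂ} (hT : CP T) (c : B) :
    (T (star c * c)).PosSemidef := by
  classical
  have h := (pos_iff _).mp (hT 1 (fun _ => c) (fun _ => 1))
  simpa using h

theorem cp_star {T : B →ₗ[ℂ] Matrix K K ℂ} (hT : CP T) (z : B) : T (star z) = (T z)ᴴ := by
  classical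
  have h1 := ((pos_iff _).mp (hT 2 ![star z, 1] ![1, 1])).isHermitian.eq
  have h2 := ((pos_iff _).mp (hT 2 ![star z, 1] ![1, Complex.I • 1])).isHermitian.eq
  have h3 : (T (z * star z))ᴴ = T (z * star z) := by
    simpa using (cp_one hT (star z)).isHermitian.eq
  have h4 : (T 1)ᴴ = T 1 := by simpa using (cp_one hT 1).isHermitian.eq
  ext k l
  have e3 := congrFun (congrFun h3 k) l
  have e4 := congrFun (congrFun h4 k) l
  have e1 := congrFun (congrFun h1 k) l
  have e2 := congrFun (congrFun h2 k) l
  simp [Fin.sum_univ_two, Matrix.star_eq_conjTranspose] at e1 e2 e3 e4 ⊢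
  have hI := Complex.I_sq
  linear_combination (-(1 / 2) : ℂ) * (e1 - e3 - e4) -
    (Complex.I / 2) * (e2 - e3 + Complex.I ^ 2 * e4) +
    ((1 / 2) * (-(starRingEnd ℂ (T z l k)) + starRingEnd ℂ (T (star z) l k) - T z k l +
      T (star z) k l)) * hI

/-- the big matrix of a completely positive map -/
def big {J : Type} (T : B → Matrix K K ℂ) (a : J → B) : Matrix (J × K) (J × K) ℂ :=
  Matrix.of fun p q => T (star (a p.1) * a q.1) p.2 q.2

theorem cp_fin {T : B →ₗ[ℂ] Matrix K K ℂ} (hT : CP T) {J : Type} [Fintype J] (a : J → B)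
    (b : J → Matrix K K ℂ) :
    (∑ i, ∑ j, star (b i) * T (star (a i) * a j) * b j).PosSemidef := by
  classical
  have e := Fintype.equivFin J
  have h := (pos_iff _).mp (hT (Fintype.card J) (fun i => a (e.symm i)) (fun i => b (e.symm i)))
  convert h using 1
  rw [← e.symm.sum_comp]
  refine Finset.sum_congr rfl fun i _ => ?_
  rw [← e.symm.sum_comp]

theorem big_psd {T : B →ₗ[ℂ] Matrix K K ℂ} (hT : CP T) {J : Type} [Fintype J] (a : J → B) :
    (big T a).PosSemidef := by
  classical
  refine Matrix.PosSemidef.of_dotProduct_mulVec_nonneg ?_ fun v => ?_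
  · ext p q
    simp only [big, Matrix.conjTranspose_apply, Matrix.of_apply]
    have h := cp_star hT (star (a p.1) * a q.1)
    rw [star_mul, star_star] at h
    rw [h, Matrix.conjTranspose_apply, star_star]
  · rcases isEmpty_or_nonempty K with hK | ⟨⟨k0⟩⟩
    · simp [dotProduct]
    have h := (cp_fin hT a (fun s => Matrix.of fun k (_ : K) => v (s, k))).diag_nonneg (i := k0)
    convert h using 1
    simp only [dotProduct, Matrix.mulVec, big, Matrix.of_apply, Fintype.sum_prod_type,
      Matrix.sum_apply, Matrix.mul_apply, Matrix.star_apply, Pi.star_apply, Finset.mul_sum,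
      Finset.sum_mul]
    refine Finset.sum_congr rfl fun i _ => ?_
    rw [Finset.sum_comm]
    refine Finset.sum_congr rfl fun j _ => ?_
    rw [Finset.sum_comm]
    refine Finset.sum_congr rfl fun l _ => Finset.sum_congr rfl fun k _ => ?_
    ring

theorem cp_of_big {T : B → Matrix K K ℂ}
    (h : ∀ (n : ℕ) (a : Fin n → B), (big T a).PosSemidef) : CP T := by
  classical
  intro n a b
  rw [pos_iff]
  have h2 := (h n a).conjTranspose_mul_mul_same
    (Matrix.of fun (p : Fin n × K) (q : K) => b p.1 p.2 q)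
  convert h2 using 1
  ext k l
  simp only [big, Matrix.of_apply, Fintype.sum_prod_type,
      Matrix.sum_apply, Matrix.mul_apply, Matrix.star_apply, Matrix.conjTranspose_apply,
      Finset.mul_sum, Finset.sum_mul]
  rw [Finset.sum_comm]
  refine Finset.sum_congr rfl fun j _ => ?_
  rw [Finset.sum_comm]

/-- Schwarz inequality -/
theorem schwarz {T : B →ₗ[ℂ] Matrix K K ℂ} [DecidableEq K] (hT : CP T) (h1 : Pos (1 - T 1))
    (z : B) : (T (z * star z) - T z * (T z)ᴴ).PosSemidef := by
  have h := (pos_iff _).mp (hT 2 ![star z, 1] ![1, -(T z)ᴴ])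
  have h2 := ((pos_iff _).mp h1).mul_mul_conjTranspose_same (T z)
  have h3 := h.add h2
  have h4 : (T 1)ᴴ = T 1 := by simpa using (cp_one hT 1).isHermitian.eq
  convert h3 using 1
  simp [Fin.sum_univ_two, cp_star hT, h4, Matrix.star_eq_conjTranspose, Matrix.mul_sub, Matrix.sub_mul,
    Matrix.mul_assoc]
  abel

end mat

end Run7.h423.CE
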